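import Mathlib

/-! A shooting argument for the Jacobi matrix of the quantum Rabi model with `g = 7`,
`Δ = 47`, parity `-1`. -/

set_option autoImplicit false

namespace Pool.Agent.H769Z.Rabi

/-- consecutive terms of the polynomial solution of the three-term recurrence -/
def wp {R : Type} [CommRing R] (x : R) : ℕ → R × R
  | 0 => (1, 2 - x)
  | k + 1 => ((wp x k).2,
      (((k : R) + 1) - (-1) ^ (k + 1) * 47 + 49 - x) * (wp x k).2 - 49 * ((k : R) + 1) * (wp x k).1)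

/-- the polynomial solution -/
def w (x : ℝ) (k : ℕ) : ℝ := (wp x k).1

theorem w_zero (x : ℝ) : w x 0 = 1 := rfl

theorem w_one (x : ℝ) : w x 1 = 2 - x := rfl

theorem w_succ (x : ℝ) (k : ℕ) : w x (k + 1) = (wp x k).2 := rfl

theorem w_rec (x : ℝ) (k : ℕ) : w x (k + 2) =
    (((k : ℝ) + 1) - (-1) ^ (k + 1) * 47 + 49 - x) * w x (k + 1) - 49 * ((k : ℝ) + 1) * w x k := rfl

theorem wp_cast (x : ℚ) (k : ℕ) : wp (x : ℝ) k = (((wp x k).1 : ℝ), ((wp x k).2 : ℝ)) := by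
  induction k with
  | zero => simp [wp]
  | succ k ih => simp [wp, ih]

theorem continuous_wp (k : ℕ) : Continuous fun x : ℝ => wp x k := by
  induction k with
  | zero => unfold wp; fun_prop
  | succ k ih => unfold wp; fun_prop

theorem continuous_w (k : ℕ) : Continuous fun x : ℝ => w x k := (continuous_wp k).fst

/-- escape with sign `σ` -/
def Esc (σ : ℝ) : Set ℝ := {x | ∃ k, 200 ≤ k ∧ 98 * |w x k| < σ * w x (k + 1)}

theorem isOpen_Esc (σ : ℝ) : IsOpen (Esc σ) := by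
  have : Esc σ = ⋃ k, ⋃ (_ : 200 ≤ k), {x | 98 * |w x k| < σ * w x (k + 1)} := by
    ext x; simp [Esc]
  rw [this]
  refine isOpen_iUnion fun k => isOpen_iUnion fun _ => isOpen_lt ?_ ?_
  · exact continuous_const.mul (continuous_w k).abs
  · exact continuous_const.mul (continuous_w _)

theorem esc_step {σ x : ℝ} (hσ : σ = 1 ∨ σ = -1) (hx : x ≤ 2) {k : ℕ} (hk : 200 ≤ k)
    (h : 98 * |w x k| < σ * w x (k + 1)) : 98 * |w x (k + 1)| < σ * w x (k + 2) := by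
  have hk' : (200 : ℝ) ≤ k := by exact_mod_cast hk
  have h1 : |w x (k + 1)| = σ * w x (k + 1) := by
    have h0 : 0 < σ * w x (k + 1) := lt_of_le_of_lt (by positivity) h
    rcases hσ with rfl | rfl
    · rw [one_mul] at h0 ⊢; exact abs_of_pos h0
    · rw [neg_one_mul] at h0 ⊢; exact abs_of_neg (by linarith)
  have h2 : σ * w x k ≤ |w x k| := by
    rcases hσ with rfl | rfl
    · rw [one_mul]; exact le_abs_self _
    · rw [neg_one_mul]; exact neg_le_abs _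
  have h3 : ((-1 : ℝ)) ^ (k + 1) ≤ 1 := by
    rcases neg_one_pow_eq_or ℝ (k + 1) with h | h <;> rw [h] <;> norm_num
  have h0 : 0 < σ * w x (k + 1) := lt_of_le_of_lt (by positivity) h
  rw [w_rec, h1]
  have e : σ * ((((k : ℝ) + 1) - (-1) ^ (k + 1) * 47 + 49 - x) * w x (k + 1) -
      49 * ((k : ℝ) + 1) * w x k) =
      (((k : ℝ) + 1) - (-1) ^ (k + 1) * 47 + 49 - x) * (σ * w x (k + 1)) -
        49 * ((k : ℝ) + 1) * (σ * w x k) := by ring
  rw [e]
  have h4 : ((k : ℝ) + 1) ≤ ((k : ℝ) + 1) - (-1) ^ (k + 1) * 47 + 49 - x := by linarith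
  have h5 : 49 * ((k : ℝ) + 1) * (σ * w x k) ≤ ((k : ℝ) + 1) / 2 * (σ * w x (k + 1)) := by
    have : 98 * (σ * w x k) ≤ σ * w x (k + 1) := by linarith
    nlinarith
  nlinarith

theorem esc_all {σ x : ℝ} (hσ : σ = 1 ∨ σ = -1) (hx : x ≤ 2) {k : ℕ} (hk : 200 ≤ k)
    (h : 98 * |w x k| < σ * w x (k + 1)) (j : ℕ) (hj : k ≤ j) :
    98 * |w x j| < σ * w x (j + 1) := by
  induction j, hj using Nat.le_induction with
  | base => exact h
  | succ j hj ih => exact esc_step hσ hx (hk.trans hj) ih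

theorem exists_mid {a b σ : ℝ} (hσ : σ = 1 ∨ σ = -1) (hab : a ≤ b) (hb : b ≤ 2)
    (ha : a ∈ Esc σ) (hb' : b ∈ Esc (-σ)) :
    ∃ x, a < x ∧ x < b ∧ ∀ k, 200 ≤ k → |w x (k + 1)| ≤ 98 * |w x k| := by
  have hσ' : -σ = 1 ∨ -σ = -1 := by rcases hσ with rfl | rfl <;> simp
  obtain ⟨x, hx, h1, h2⟩ : ∃ x ∈ Set.Icc a b, x ∉ Esc σ ∧ x ∉ Esc (-σ) := by
    by_contra hcon
    push Not at hcon
    obtain ⟨x, hx, ⟨k, hk, h1⟩, ⟨l, hl, h2⟩⟩ := isPreconnected_Icc (a := a) (b := b) _ _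
      (isOpen_Esc σ) (isOpen_Esc (-σ)) (fun x hx => by
        by_cases h : x ∈ Esc σ
        · exact Or.inl h
        · exact Or.inr (hcon x hx h)) ⟨a, ⟨le_rfl, hab⟩, ha⟩ ⟨b, ⟨hab, le_rfl⟩, hb'⟩
    have e1 := esc_all hσ (hx.2.trans hb) hk h1 (max k l) (le_max_left _ _)
    have e2 := esc_all hσ' (hx.2.trans hb) hl h2 (max k l) (le_max_right _ _)
    have := abs_nonneg (w x (max k l))
    linarith
  refine ⟨x, lt_of_le_of_ne hx.1 (fun h => h1 (h ▸ ha)), lt_of_le_of_ne hx.2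
    (fun h => h2 (h ▸ hb')), fun k hk => ?_⟩
  have e1 : σ * w x (k + 1) ≤ 98 * |w x k| := not_lt.1 fun h => h1 ⟨k, hk, h⟩
  have e2 : -σ * w x (k + 1) ≤ 98 * |w x k| := not_lt.1 fun h => h2 ⟨k, hk, h⟩
  rcases hσ with rfl | rfl <;> exact abs_le.2 ⟨by linarith, by linarith⟩

/-- the normalised sequence -/
noncomputable def u (x : ℝ) (k : ℕ) : ℝ := (-1) ^ k * w x k / (7 ^ k * Real.sqrt k.factorial)

theorem sqrt_fact_succ (k : ℕ) :
    Real.sqrt (k + 1).factorial = Real.sqrt ((k : ℝ) + 1) * Real.sqrt k.factorial := by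
  rw [Nat.factorial_succ, Nat.cast_mul, Real.sqrt_mul (by positivity)]
  push_cast; rfl

theorem u_rec (x : ℝ) (k : ℕ) : ((k : ℝ) + (-1) * (-1 : ℝ) ^ k * 47) * u x k
    + 7 * (Real.sqrt (k : ℝ) * u x (k - 1) + Real.sqrt ((k : ℝ) + 1) * u x (k + 1))
    = (x - 49) * u x k := by
  rcases k with _ | k
  · simp [u, w_zero, w_one]
    ring
  · have h1 : 0 < Real.sqrt (k.factorial : ℝ) := Real.sqrt_pos.2 (by positivity)
    have h2 : 0 < Real.sqrt ((k : ℝ) + 1) := Real.sqrt_pos.2 (by positivity)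
    have h3 : 0 < Real.sqrt ((k : ℝ) + 1 + 1) := Real.sqrt_pos.2 (by positivity)
    have h4 : Real.sqrt ((k : ℝ) + 1) ^ 2 = k + 1 := Real.sq_sqrt (by positivity)
    simp only [u, Nat.add_sub_cancel, sqrt_fact_succ, w_rec]
    push_cast
    field_simp
    rw [h4]
    ring

theorem u_summable {x : ℝ} (h : ∀ k, 200 ≤ k → |w x (k + 1)| ≤ 98 * |w x k|) :
    Summable fun k => u x k ^ 2 := by
  refine summable_of_ratio_norm_eventually_le (r := 98 / 100) (by norm_num) ?_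
  filter_upwards [Filter.eventually_ge_atTop 200] with k hk
  have hk' : (200 : ℝ) ≤ k := by exact_mod_cast hk
  have e : ∀ j, u x j ^ 2 = w x j ^ 2 / (49 ^ j * j.factorial) := by
    intro j
    rw [u, div_pow, mul_pow, mul_pow, Real.sq_sqrt (by positivity), ← pow_mul, ← pow_mul,
      mul_comm j 2, pow_mul, pow_mul]
    norm_num
  have h1 : w x (k + 1) ^ 2 ≤ 98 ^ 2 * w x k ^ 2 := by
    rw [← sq_abs (w x (k + 1)), ← sq_abs (w x k), ← mul_pow]
    exact pow_le_pow_left₀ (abs_nonneg _) (h k hk) 2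
  rw [Real.norm_of_nonneg (sq_nonneg _), Real.norm_of_nonneg (sq_nonneg _), e, e,
    Nat.factorial_succ, pow_succ (49 : ℝ)]
  push_cast
  have h2 : (0 : ℝ) < 49 ^ k * k.factorial := by positivity
  rw [div_le_iff₀ (by positivity)]
  have e2 : 98 / 100 * (w x k ^ 2 / (49 ^ k * k.factorial)) *
      (49 ^ k * 49 * (((k : ℝ) + 1) * k.factorial)) = 98 / 100 * 49 * (k + 1) * w x k ^ 2 := by
    field_simp
  rw [e2]
  nlinarith [sq_nonneg (w x k)]

theorem eig {a b σ : ℝ} (hσ : σ = 1 ∨ σ = -1) (hab : a ≤ b) (hb : b ≤ 2)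
    (ha : a ∈ Esc σ) (hb' : b ∈ Esc (-σ)) :
    ∃ e : ℝ, a < e + 7 ^ 2 ∧ e + 7 ^ 2 < b ∧ ∃ v : ℕ → ℝ, v ≠ 0 ∧ Summable (fun k => v k ^ 2) ∧
      ∀ k : ℕ, ((k : ℝ) + (-1) * (-1 : ℝ) ^ k * 47) * v k
        + 7 * (Real.sqrt (k : ℝ) * v (k - 1) + Real.sqrt ((k : ℝ) + 1) * v (k + 1)) = e * v k := by
  obtain ⟨x, h1, h2, h3⟩ := exists_mid hσ hab hb ha hb'
  refine ⟨x - 49, by linarith, by linarith, u x, fun h => ?_, u_summable h3, u_rec x⟩
  have := congrFun h 0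
  simp [u, w_zero] at this

theorem esc_of_rat (x σ : ℚ) (h : 98 * |(wp x 200).1| < σ * (wp x 200).2) :
    (x : ℝ) ∈ Esc (σ : ℝ) := by
  have key : ∀ k, 98 * |(wp x k).1| < σ * (wp x k).2 →
      98 * |w x k| < (σ : ℝ) * w x (k + 1) := by
    intro k hk
    rw [w_succ (x : ℝ) k, w, wp_cast]
    dsimp only
    exact_mod_cast hk
  exact ⟨200, le_rfl, key 200 h⟩

theorem esc0 : (0 : ℝ) ∈ Esc 1 := by
  simpa using esc_of_rat 0 1 (by decide +kernel)

theorem esc1 : (1 / 2 : ℝ) ∈ Esc (-1) := by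
  simpa using esc_of_rat (1 / 2) (-1) (by decide +kernel)

theorem esc2 : (1 : ℝ) ∈ Esc 1 := by
  simpa using esc_of_rat 1 1 (by decide +kernel)

theorem esc3 : (3 / 2 : ℝ) ∈ Esc (-1) := by
  simpa using esc_of_rat (3 / 2) (-1) (by decide +kernel)

theorem esc4 : (2 : ℝ) ∈ Esc 1 := by
  simpa using esc_of_rat 2 1 (by decide +kernel)


end Pool.Agent.H769Z.Rabi
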